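import Pool.Agent.Horrocks46.Main

/-!
# Horrocks' inequalities for gradings of complexity at most one

Let `M ≠ 0` be a module over `S = k[X_1, …, X_m]` of finite dimension over the field `k`, on which
every variable acts nilpotently (every graded module of finite dimension, with variables of
positive degree, is of this kind).  Suppose that `M` is graded by `ℤ^d`, that the variable `X_j`
has degree `w j`, and that the subgroup of `ℤ^d` spanned by the degrees `w 1, …, w m` has rank at
least `m - 1` (a torus action of complexity at most one).  Then in every resolution of `M` by free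
modules of finite rank (in particular in the minimal one) the `i`-th free module has rank at
least `m.choose i`.
-/

open MvPolynomial Horr

universe u

theorem Pool.Agent.Results.MP_e2ce73_al.ComplexityOne.result
    {k : Type u} [Field k] (m d : ℕ)
    {M : Type u} [AddCommGroup M] [Module k M] [Module (MvPolynomial (Fin m) k) M]
    [IsScalarTower k (MvPolynomial (Fin m) k) M] [Module.Finite k M] [Nontrivial M]
    -- the variables act nilpotently
    (hnil : ∀ j, ∃ N : ℕ, ∀ z : M, (X j ^ N : MvPolynomial (Fin m) k) • z = 0)
    -- `M` is graded by `ℤ^d`
    (𝓜 : (Fin d → ℤ) → Submodule k M) (h𝓜 : DirectSum.IsInternal 𝓜)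
    -- and the variable `X j` has degree `w j`
    (w : Fin m → (Fin d → ℤ))
    (hw : ∀ j γ, ∀ z ∈ 𝓜 γ, (X j : MvPolynomial (Fin m) k) • z ∈ 𝓜 (γ + w j))
    -- the degrees of the variables span a group of rank at least `m - 1`
    (hrank : m ≤ Module.finrank ℤ (Submodule.span ℤ (Set.range w)) + 1)
    -- any free resolution of `M`
    (F : FreeRes (MvPolynomial (Fin m) k) M) (i : ℕ) :
    m.choose i ≤ F.rk i :=
  Horr46.main m d hnil 𝓜 h𝓜 w hw hrank F i
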